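import Pool.Agent.Helper16.NR.Stmts

/-! Module PR of the project on `N_2(H)` (MP_798d7d_nt): primes in a fixed class in a dyadic
interval. -/

set_option autoImplicit false

namespace Pool.Helper16.NR

open Real Filter

theorem pr_asym (ε : ℝ) (hε : 0 < ε) : ∃ Z0 : ℝ, 100 ≤ Z0 ∧ ∀ Z : ℝ, Z0 ≤ Z →
    55 * (log Z / log 2 + 1) * Z ^ (1 - ε) + 2 ≤ ((Z - 1) * log 2 - log (Z + 2)) / log Z := by
  have h1 : ∀ᶠ Z : ℝ in atTop, ‖log Z‖ ≤ 1 * ‖Z ^ (ε / 4)‖ :=
    (isLittleO_log_rpow_atTop (by positivity)).bound one_pos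
  have h2 : ∀ᶠ Z : ℝ in atTop, 1000 ≤ Z ^ (ε / 2) :=
    (tendsto_rpow_atTop (by positivity)).eventually_ge_atTop 1000
  have h3 : ∀ᶠ Z : ℝ in atTop, ‖log Z‖ ≤ (1 / 20) * ‖id Z‖ :=
    isLittleO_log_id_atTop.bound (by norm_num)
  obtain ⟨Z1, hZ1⟩ := eventually_atTop.mp (h1.and (h2.and h3))
  refine ⟨max Z1 100, le_max_right _ _, fun Z hZ => ?_⟩
  obtain ⟨a1, a2, a3⟩ := hZ1 Z ((le_max_left _ _).trans hZ)
  have hZ100 : (100 : ℝ) ≤ Z := (le_max_right _ _).trans hZ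
  have hZ0 : (0 : ℝ) < Z := by linarith
  have hL1 : 1 ≤ log Z := by
    rw [Real.le_log_iff_exp_le hZ0]
    have := Real.exp_one_lt_d9
    linarith
  have hL0 : 0 < log Z := by linarith
  rw [Real.norm_of_nonneg hL0.le, Real.norm_of_nonneg (by positivity), one_mul] at a1
  rw [Real.norm_of_nonneg hL0.le, id, Real.norm_of_nonneg hZ0.le] at a3
  have hl2 : (0.69 : ℝ) < log 2 := by have := Real.log_two_gt_d9; linarith
  rw [le_div_iff₀ hL0]
  have b1 : log (Z + 2) ≤ 2 * log Z := by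
    rw [← Real.log_rpow hZ0]
    apply Real.log_le_log (by linarith)
    norm_num
    nlinarith
  have b2 : log Z / log 2 + 1 ≤ 3 * log Z := by
    have : log Z / log 2 ≤ 2 * log Z := by
      rw [div_le_iff₀ (by linarith)]
      nlinarith
    linarith
  have hp : 0 < Z ^ (1 - ε) := by positivity
  have b3 : log Z * log Z * Z ^ (1 - ε) * 1000 ≤ Z := by
    have e1 : Z ^ (ε / 4) * Z ^ (ε / 4) * Z ^ (1 - ε) * Z ^ (ε / 2) = Z := by
      rw [← Real.rpow_add hZ0, ← Real.rpow_add hZ0, ← Real.rpow_add hZ0]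
      have : ε / 4 + ε / 4 + (1 - ε) + ε / 2 = 1 := by ring
      rw [this, Real.rpow_one]
    calc log Z * log Z * Z ^ (1 - ε) * 1000
        ≤ Z ^ (ε / 4) * Z ^ (ε / 4) * Z ^ (1 - ε) * Z ^ (ε / 2) := by gcongr
      _ = Z := e1
  have b4 : (55 * (log Z / log 2 + 1) * Z ^ (1 - ε)) * log Z ≤ 0.165 * Z := by
    calc (55 * (log Z / log 2 + 1) * Z ^ (1 - ε)) * log Z
        ≤ (55 * (3 * log Z) * Z ^ (1 - ε)) * log Z := by gcongr
      _ = 0.165 * (log Z * log Z * Z ^ (1 - ε) * 1000) := by ring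
      _ ≤ 0.165 * Z := by linarith
  have b5 : (Z - 1) * 0.69 ≤ (Z - 1) * log 2 :=
    mul_le_mul_of_nonneg_left hl2.le (by linarith)
  calc (55 * (log Z / log 2 + 1) * Z ^ (1 - ε) + 2) * log Z
      = (55 * (log Z / log 2 + 1) * Z ^ (1 - ε)) * log Z + 2 * log Z := by ring
    _ ≤ (Z - 1) * log 2 - log (Z + 2) := by linarith

theorem pr_card (n : ℕ) (Z : ℝ) (hn : n = ⌊Z⌋₊) (hZ : 1 < Z) :
    ((Z - 1) * log 2 - log (Z + 2)) / log Z - 2 ≤
      ((((Finset.Icc 1 n).filter (fun p => p.Prime ∧ p ≠ 5 ∧ p ≠ 11)).card : ℕ) : ℝ) := by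
  have h := Chebyshev.pi_ge' hZ
  have h2 : Nat.primeCounting n ≤
      ((Finset.Icc 1 n).filter (fun p => p.Prime ∧ p ≠ 5 ∧ p ≠ 11)).card + 2 := by
    rw [← Nat.primesLE_card_eq_primeCounting]
    calc (Nat.primesLE n).card
        ≤ (((Finset.Icc 1 n).filter (fun p => p.Prime ∧ p ≠ 5 ∧ p ≠ 11)) ∪ {5, 11}).card := by
          apply Finset.card_le_card
          intro p hp
          have hp1 := Nat.prime_of_mem_primesLE hp
          have hp2 := Nat.le_of_mem_primesLE hp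
          by_cases h5 : p = 5
          · simp [h5]
          by_cases h11 : p = 11
          · simp [h11]
          simp only [Finset.mem_union, Finset.mem_filter, Finset.mem_Icc]
          left
          exact ⟨⟨hp1.one_le, hp2⟩, hp1, h5, h11⟩
      _ ≤ _ := (Finset.card_union_le _ _).trans (by simp)
  have h3 : (Nat.primeCounting n : ℝ) ≤
      (((Finset.Icc 1 n).filter (fun p => p.Prime ∧ p ≠ 5 ∧ p ≠ 11)).card : ℝ) + 2 := by
    exact_mod_cast h2
  rw [← hn] at h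
  linarith

theorem pr_log (n : ℕ) (Z : ℝ) (hn : n = ⌊Z⌋₊) (hZ : 1 < Z) :
    ((Nat.log 2 n + 1 : ℕ) : ℝ) ≤ log Z / log 2 + 1 := by
  have hn1 : 1 ≤ n := by rw [hn]; exact Nat.one_le_floor_iff _ |>.mpr hZ.le
  have hn0 : (0 : ℝ) < n := by exact_mod_cast hn1
  have hnZ : (n : ℝ) ≤ Z := by rw [hn]; exact Nat.floor_le (by linarith)
  have h2 : (0 : ℝ) < log 2 := Real.log_pos (by norm_num)
  push_cast
  have : (Nat.log 2 n : ℝ) ≤ log Z / log 2 := by
    rw [le_div_iff₀ h2, ← Real.log_pow]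
    apply Real.log_le_log (by positivity)
    have := Nat.pow_log_le_self 2 (show n ≠ 0 by omega)
    have h3 : ((2 : ℝ) ^ (Nat.log 2 n)) ≤ (n : ℝ) := by exact_mod_cast this
    linarith
  linarith

/-- PR: primes in a fixed class in a dyadic interval. -/
theorem st_PR : ST_PR := by
  intro ε hε
  obtain ⟨Z0, hZ0, h0⟩ := pr_asym ε hε
  refine ⟨Z0, fun Z hZ => ?_⟩
  have hZ100 : (100 : ℝ) ≤ Z := hZ0.trans hZ
  have hZpos : (0 : ℝ) < Z := by linarith
  obtain ⟨n, hn⟩ : ∃ n : ℕ, n = ⌊Z⌋₊ := ⟨_, rfl⟩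
  have hnZ : (n : ℝ) ≤ Z := by rw [hn]; exact Nat.floor_le (by linarith)
  set S := (Finset.Icc 1 n).filter (fun p => p.Prime ∧ p ≠ 5 ∧ p ≠ 11) with hS
  have hc := pr_card n Z hn (by linarith)
  have hl := pr_log n Z hn (by linarith)
  rw [← hS] at hc
  have hp : 0 < Z ^ (1 - ε) := by positivity
  set T : Finset (ℕ × ZMod 5 × ZMod 11) :=
    (Finset.range (Nat.log 2 n + 1)) ×ˢ (Finset.univ ×ˢ Finset.univ) with hT
  have hTc : (T.card : ℝ) = 55 * ((Nat.log 2 n + 1 : ℕ) : ℝ) := by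
    rw [hT, Finset.card_product, Finset.card_product, Finset.card_range]
    simp only [Finset.card_univ, ZMod.card]
    push_cast
    ring
  set f : ℕ → ℕ × ZMod 5 × ZMod 11 := fun y => (Nat.log 2 (n / y), (y : ZMod 5), (y : ZMod 11))
    with hf
  have hmap : ∀ y ∈ S, f y ∈ T := by
    intro y hy
    rw [hf, hT]
    simp only [Finset.mem_product, Finset.mem_range, Finset.mem_univ, and_true]
    exact Nat.lt_succ_of_le (Nat.log_mono_right (Nat.div_le_self _ _))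
  have hTn : T.Nonempty := ⟨(0, 0, 0), by
    rw [hT]
    simp only [Finset.mem_product, Finset.mem_range, Finset.mem_univ, and_true]
    omega⟩
  have hmul : T.card • (Z ^ (1 - ε)) ≤ (S.card : ℝ) := by
    rw [nsmul_eq_mul, hTc]
    have h := h0 Z hZ
    have : 55 * ((Nat.log 2 n + 1 : ℕ) : ℝ) * Z ^ (1 - ε) ≤
      55 * (log Z / log 2 + 1) * Z ^ (1 - ε) := by gcongr
    linarith
  obtain ⟨⟨k, r5, r11⟩, hkT, hk⟩ :=
    Finset.exists_le_card_fiber_of_nsmul_le_card_of_maps_to hmap hTn hmul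
  set F := S.filter (fun y => f y = (k, r5, r11)) with hF
  have hFm : ∀ y ∈ F, y.Prime ∧ y ≠ 5 ∧ y ≠ 11 ∧ n / 2 ^ k < 2 * y ∧ y ≤ n / 2 ^ k ∧
      (y : ZMod 5) = r5 ∧ (y : ZMod 11) = r11 := by
    intro y hy
    rw [hF, Finset.mem_filter, hS, Finset.mem_filter, Finset.mem_Icc, hf] at hy
    obtain ⟨⟨⟨hy1, hyn⟩, hyp, hy5, hy11⟩, hy3⟩ := hy
    simp only [Prod.mk.injEq] at hy3
    obtain ⟨hk1, hk5, hk11⟩ := hy3
    have hd : n / y ≠ 0 := by
      have := Nat.div_pos hyn (by omega)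
      omega
    have e1 : 2 ^ k ≤ n / y := by rw [← hk1]; exact Nat.pow_log_le_self 2 hd
    have e2 : n / y < 2 ^ (k + 1) := by
      rw [← hk1]; exact Nat.lt_pow_succ_log_self (by norm_num) _
    refine ⟨hyp, hy5, hy11, ?_, ?_, hk5, hk11⟩
    · rw [Nat.div_lt_iff_lt_mul (by positivity)]
      rw [Nat.div_lt_iff_lt_mul (by omega)] at e2
      calc n < 2 ^ (k + 1) * y := e2
        _ = 2 * y * 2 ^ k := by ring
    · rw [Nat.le_div_iff_mul_le (by positivity)]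
      rw [Nat.le_div_iff_mul_le (by omega)] at e1
      linarith [mul_comm (2 ^ k) y]
  have hFpos : 0 < F.card := by
    have : (0 : ℝ) < F.card := lt_of_lt_of_le hp hk
    exact_mod_cast this
  obtain ⟨y0, hy0⟩ := Finset.card_pos.mp hFpos
  obtain ⟨g1, g2, g3, g4, g5, g6, g7⟩ := hFm y0 hy0
  have hYn : n / 2 ^ k ≤ n := Nat.div_le_self _ _
  have hFY : F.card ≤ n / 2 ^ k := by
    calc F.card ≤ (Finset.Icc 1 (n / 2 ^ k)).card := by
          apply Finset.card_le_card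
          intro y hy
          obtain ⟨f1, f2, f3, f4, f5, f6, f7⟩ := hFm y hy
          exact Finset.mem_Icc.mpr ⟨f1.one_le, f5⟩
      _ = n / 2 ^ k := by simp
  refine ⟨n / 2 ^ k, F.map Nat.castEmbedding, r5, r11, ?_, ?_, ?_, ?_, ?_, ?_⟩
  · intro h
    rw [h, ZMod.natCast_eq_zero_iff] at g6
    exact g2 ((Nat.prime_dvd_prime_iff_eq (by norm_num) g1).mp g6).symm
  · intro h
    rw [h, ZMod.natCast_eq_zero_iff] at g7
    exact g3 ((Nat.prime_dvd_prime_iff_eq (by norm_num) g1).mp g7).symm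
  · have : ((n / 2 ^ k : ℕ) : ℝ) ≤ (n : ℝ) := by exact_mod_cast hYn
    linarith
  · have : (F.card : ℝ) ≤ ((n / 2 ^ k : ℕ) : ℝ) := by exact_mod_cast hFY
    linarith
  · intro y hy
    rw [Finset.mem_map] at hy
    obtain ⟨z, hz, rfl⟩ := hy
    obtain ⟨f1, f2, f3, f4, f5, f6, f7⟩ := hFm z hz
    simp only [Nat.castEmbedding_apply, Int.cast_natCast]
    refine ⟨Nat.prime_iff_prime_int.mp f1, ?_, ?_, f6, f7⟩
    · exact_mod_cast f4
    · exact_mod_cast f5
  · rw [Finset.card_map]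
    exact hk

end Pool.Helper16.NR
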