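import Pool.Agent.Helper16.NR.Stmts2

/-! Module WSV of the project on `N_2(H)` (MP_798d7d_nt): tuples for which `w ^ 4` divides `A`. -/

set_option autoImplicit false

namespace Pool.Helper16.NR

open Finset

theorem wsv_class (S : Finset ℕ) (M D : ℕ) (hD : 0 < D) (h1 : ∀ l ∈ S, l < M)
    (h2 : ∀ l ∈ S, ∀ k ∈ S, (D : ℤ) ∣ (l : ℤ) - k) : S.card ≤ M / D + 1 := by
  calc S.card ≤ (range (M / D + 1)).card := by
        apply Finset.card_le_card_of_injOn (fun l => l / D)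
        · intro l hl
          have := h1 l hl
          simp only [Finset.coe_range, Set.mem_Iio]
          exact Nat.lt_succ_of_le (Nat.div_le_div_right this.le)
        · intro l hl k hk hlk
          have hd := h2 l hl k hk
          have hm : l % D = k % D := by
            have := (Int.emod_emod_of_dvd (n := (l : ℤ)) (m := (D : ℤ)) dvd_rfl)
            have h3 : (l : ℤ) ≡ k [ZMOD D] := (Int.modEq_iff_dvd.mpr (by
              have := (dvd_neg.mpr hd)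
              rwa [neg_sub] at this))
            exact_mod_cast h3
          simp only at hlk
          rw [← Nat.div_add_mod l D, ← Nat.div_add_mod k D, hlk, hm]
    _ = M / D + 1 := card_range _

theorem wsv_inner (m w k1 k2 j : ℕ) (hw : 1 ≤ w) :
    ((((Finset.range (m ^ 3)).filter (fun l => (w : ℤ) ^ 4 ∣ tA (k1, k2, j, l))).card : ℕ) : ℝ) ≤
      ((m : ℝ) ^ 3 / (w : ℝ) ^ 4 + 1) * (Nat.gcd (110 * 55 * j) (w ^ 4) : ℝ) := by
  have hw4 : 0 < w ^ 4 := by positivity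
  obtain ⟨g, hg⟩ : ∃ g, g = Nat.gcd (110 * 55 * j) (w ^ 4) := ⟨_, rfl⟩
  have hg0 : 0 < g := by rw [hg]; exact Nat.gcd_pos_of_pos_right _ hw4
  have hgw : g ∣ w ^ 4 := by rw [hg]; exact Nat.gcd_dvd_right _ _
  obtain ⟨D, hD⟩ := hgw
  have hD0 : 0 < D := by
    rcases Nat.eq_zero_or_pos D with h | h
    · rw [h] at hD; omega
    · exact h
  have hcop : ∀ z : ℤ, ((w : ℤ) ^ 4) ∣ ((110 * 55 * j : ℕ) : ℤ) * z → (D : ℤ) ∣ z := by
    intro z hz
    have h1 : Nat.Coprime (110 * 55 * j / g) (w ^ 4 / g) := by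
      rw [hg]
      exact Nat.coprime_div_gcd_div_gcd (by rw [← hg]; exact hg0)
    have h2 : w ^ 4 / g = D := by rw [hD]; exact Nat.mul_div_cancel_left _ hg0
    rw [h2] at h1
    obtain ⟨b, hb⟩ : g ∣ 110 * 55 * j := by rw [hg]; exact Nat.gcd_dvd_left _ _
    have h3 : 110 * 55 * j / g = b := by rw [hb]; exact Nat.mul_div_cancel_left _ hg0
    rw [h3] at h1
    have h4 : ((w : ℤ) ^ 4) = (g : ℤ) * D := by exact_mod_cast hD
    rw [h4, hb] at hz
    push_cast at hz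
    rw [mul_assoc] at hz
    have h5 := Int.dvd_of_mul_dvd_mul_left (by exact_mod_cast hg0.ne') hz
    exact (Nat.isCoprime_iff_coprime.mpr h1.symm).dvd_of_dvd_mul_left h5
  have hc := wsv_class ((Finset.range (m ^ 3)).filter (fun l => (w : ℤ) ^ 4 ∣ tA (k1, k2, j, l)))
    (m ^ 3) D hD0 (fun l hl => by
      rw [mem_filter, mem_range] at hl
      exact hl.1) (fun l hl k hk => by
      rw [mem_filter] at hl hk
      apply hcop
      have := dvd_sub hl.2 hk.2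
      have e : tA (k1, k2, j, l) - tA (k1, k2, j, k) = ((110 * 55 * j : ℕ) : ℤ) * ((l : ℤ) - k) := by
        simp only [tA, tu, tv, tx1, tx2, tx3]
        push_cast
        ring
      rwa [e] at this)
  have hc2 : ((((Finset.range (m ^ 3)).filter
      (fun l => (w : ℤ) ^ 4 ∣ tA (k1, k2, j, l))).card : ℕ) : ℝ) ≤ ((m ^ 3 / D + 1 : ℕ) : ℝ) := by
    exact_mod_cast hc
  rw [← hg]
  have hDr : (0 : ℝ) < D := by exact_mod_cast hD0
  have hgr : (1 : ℝ) ≤ g := by exact_mod_cast hg0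
  have e1 : ((m ^ 3 / D + 1 : ℕ) : ℝ) ≤ (m : ℝ) ^ 3 / D + 1 := by
    push_cast
    have := @Nat.cast_div_le ℝ _ _ _ (m ^ 3) D
    push_cast at this
    linarith
  have e2 : (m : ℝ) ^ 3 / D = (m : ℝ) ^ 3 / (w : ℝ) ^ 4 * g := by
    have h4 : ((w : ℝ) ^ 4) = (g : ℝ) * D := by exact_mod_cast hD
    rw [h4]
    field_simp
  calc _ ≤ (m : ℝ) ^ 3 / D + 1 := hc2.trans e1
    _ = (m : ℝ) ^ 3 / (w : ℝ) ^ 4 * g + 1 := by rw [e2]
    _ ≤ (m : ℝ) ^ 3 / (w : ℝ) ^ 4 * g + g := by linarith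
    _ = ((m : ℝ) ^ 3 / (w : ℝ) ^ 4 + 1) * g := by ring

/-- WSV: tuples for which `w ^ 4` divides `A`. -/
theorem st_WSV (h : ST_GCD) : ST_WSV := by
  intro m w hm hw
  have h1 : (((TT m).filter (fun t => (w : ℤ) ^ 4 ∣ tA t)).card : ℝ) =
      ∑ _k1 ∈ Finset.range (m ^ 2), ∑ _k2 ∈ Finset.range (m ^ 2), ∑ j ∈ Finset.Ico m (2 * m),
        ((((Finset.range (m ^ 3)).filter
          (fun l => (w : ℤ) ^ 4 ∣ tA (_k1, _k2, j, l))).card : ℕ) : ℝ) := by
    rw [TT, Finset.card_filter]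
    push_cast
    rw [Finset.sum_product]
    refine Finset.sum_congr rfl fun k1 _ => ?_
    rw [Finset.sum_product]
    refine Finset.sum_congr rfl fun k2 _ => ?_
    rw [Finset.sum_product]
    refine Finset.sum_congr rfl fun j _ => ?_
    rw [Finset.card_filter]
    push_cast
    rfl
  have hg := h m (w ^ 4) hm (Nat.one_le_pow _ _ hw)
  have hg2 : ∑ j ∈ Finset.Ico m (2 * m), (Nat.gcd (110 * 55 * j) (w ^ 4) : ℝ) ≤
      110 * 55 * (2 * m) * ((w ^ 4).divisors.card : ℝ) := by exact_mod_cast hg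
  have hpos : (0 : ℝ) ≤ (m : ℝ) ^ 3 / (w : ℝ) ^ 4 + 1 := by positivity
  rw [h1]
  calc _ ≤ ∑ _k1 ∈ Finset.range (m ^ 2), ∑ _k2 ∈ Finset.range (m ^ 2),
        ∑ j ∈ Finset.Ico m (2 * m),
          ((m : ℝ) ^ 3 / (w : ℝ) ^ 4 + 1) * (Nat.gcd (110 * 55 * j) (w ^ 4) : ℝ) := by
        refine Finset.sum_le_sum fun k1 _ => Finset.sum_le_sum fun k2 _ =>
          Finset.sum_le_sum fun j _ => wsv_inner m w k1 k2 j hw
    _ = (m : ℝ) ^ 4 * (((m : ℝ) ^ 3 / (w : ℝ) ^ 4 + 1) *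
        ∑ j ∈ Finset.Ico m (2 * m), (Nat.gcd (110 * 55 * j) (w ^ 4) : ℝ)) := by
        rw [← Finset.mul_sum]
        simp only [Finset.sum_const, Finset.card_range, nsmul_eq_mul]
        push_cast
        ring
    _ ≤ (m : ℝ) ^ 4 * (((m : ℝ) ^ 3 / (w : ℝ) ^ 4 + 1) *
        (110 * 55 * (2 * m) * ((w ^ 4).divisors.card : ℝ))) := by gcongr
    _ = _ := by ring

end Pool.Helper16.NR
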